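import Mathlib

namespace Pool.Agent.Lib.MP_7e4769_co

open Finset

variable {I : Type} [Fintype I] [DecidableEq I]

/-- a cubic bipartite graph with a perfect matching, as a relation on one index set -/
structure Cub (R : I → I → Prop) : Prop where
  row : ∀ i, ∃ p q, p ≠ i ∧ q ≠ i ∧ p ≠ q ∧ ∀ j, R i j ↔ j = i ∨ j = p ∨ j = q
  col : ∀ j, ∃ p q, p ≠ j ∧ q ≠ j ∧ p ≠ q ∧ ∀ i, R i j ↔ i = j ∨ i = p ∨ i = q

omit [Fintype I] [DecidableEq I] in
theorem Cub.flip {R : I → I → Prop} (h : Cub R) : Cub (flip R) := ⟨h.col, h.row⟩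

omit [Fintype I] [DecidableEq I] in
theorem Cub.diag {R : I → I → Prop} (h : Cub R) (i : I) : R i i := by
  obtain ⟨p, q, -, -, -, h⟩ := h.row i
  exact (h i).2 (Or.inl rfl)

open Classical in
theorem Cub.card_row {R : I → I → Prop} (h : Cub R) (i : I) :
    (univ.filter (fun j => R i j)).card = 3 := by
  obtain ⟨p, q, h1, h2, h3, h4⟩ := h.row i
  have : univ.filter (fun j => R i j) = {i, p, q} := by
    ext j; simp [h4]
  rw [this, card_eq_three]
  exact ⟨i, p, q, h1.symm, h2.symm, h3, rfl⟩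

omit [Fintype I] [DecidableEq I] in
open Classical in
theorem dc (R : I → I → Prop) (T T' : Finset I) :
    ∑ i ∈ T, (T'.filter (fun j => R i j)).card = ∑ j ∈ T', (T.filter (fun i => R i j)).card := by
  simp only [card_filter]
  exact sum_comm

/-- closed sets -/
def Cl (R : I → I → Prop) (T : Finset I) : Prop := ∀ i ∈ T, ∀ j, R i j → j ∈ T

theorem Cub.cl_flip {R : I → I → Prop} (h : Cub R) {T : Finset I} (hT : Cl R T) :
    Cl (_root_.flip R) T := by
  classical
  intro j hj i hij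
  by_contra hi
  have e := dc R T T
  have e1 : ∑ i ∈ T, (T.filter (fun j => R i j)).card = ∑ _i ∈ T, 3 := by
    apply sum_congr rfl
    intro i hi
    rw [← h.card_row i]
    congr 1
    ext j
    simp only [mem_filter, mem_univ, true_and]
    exact ⟨fun h => h.2, fun h => ⟨hT i hi j h, h⟩⟩
  have e2 : ∑ j ∈ T, (T.filter (fun i => R i j)).card < ∑ _j ∈ T, 3 := by
    apply sum_lt_sum
    · intro k _
      rw [← h.flip.card_row k]
      apply card_le_card
      intro a ha
      simp only [mem_filter, mem_univ, true_and] at ha ⊢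
      exact ha.2
    · refine ⟨j, hj, ?_⟩
      rw [← h.flip.card_row j]
      apply card_lt_card
      refine ⟨?_, ?_⟩
      · intro a ha
        simp only [mem_filter, mem_univ, true_and] at ha ⊢
        exact ha.2
      · intro hs
        have : i ∈ T.filter (fun i => R i j) := hs (by simpa using hij)
        exact hi (mem_filter.1 this).1
  omega

/-- connectedness -/
def Conn (R : I → I → Prop) : Prop := ∀ T : Finset I, T.Nonempty → Cl R T → T = univ

theorem Cub.conn_flip {R : I → I → Prop} (h : Cub R) (hc : Conn R) : Conn (_root_.flip R) :=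
  fun T hne hT => hc T hne (h.flip.cl_flip hT)

/-- tight sets -/
def Tight (R : I → I → Prop) (T : Finset I) (e : I) : Prop :=
  T.Nonempty ∧ e ∉ T ∧ ∀ i ∈ T, ∀ j, R i j → j ∈ T ∨ j = e

theorem Cub.interior {R : I → I → Prop} (h : Cub R) {T : Finset I} {e : I} (hT : Tight R T e)
    (h3 : 3 ≤ T.card) : ∃ r ∈ T, ∀ i, R i r → i ∈ T := by
  classical
  by_contra hn
  push Not at hn
  have e0 := dc R T (insert e T)
  have e1 : ∑ i ∈ T, ((insert e T).filter (fun j => R i j)).card = ∑ _i ∈ T, 3 := by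
    apply sum_congr rfl
    intro i hi
    rw [← h.card_row i]
    congr 1
    ext j
    simp only [mem_filter, mem_univ, true_and, mem_insert]
    exact ⟨fun h => h.2, fun h => ⟨(hT.2.2 i hi j h).symm, h⟩⟩
  have key : ∀ j, (∃ i, R i j ∧ i ∉ T) → (T.filter (fun i => R i j)).card ≤ 2 := by
    rintro j ⟨i, hij, hi⟩
    have : (T.filter (fun i => R i j)).card < 3 := by
      rw [← h.flip.card_row j]
      apply card_lt_card
      refine ⟨?_, ?_⟩
      · intro a ha
        simp only [mem_filter, mem_univ, true_and] at ha ⊢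
        exact ha.2
      · intro hs
        have : i ∈ T.filter (fun i => R i j) := hs (mem_filter.2 ⟨mem_univ _, hij⟩)
        exact hi (mem_filter.1 this).1
    omega
  have e2 : ∑ j ∈ insert e T, (T.filter (fun i => R i j)).card ≤ ∑ _j ∈ insert e T, 2 := by
    apply sum_le_sum
    intro j hj
    apply key
    rcases mem_insert.1 hj with rfl | hj
    · exact ⟨j, h.diag j, hT.2.1⟩
    · exact hn j hj
  rw [e1] at e0
  simp only [sum_const, smul_eq_mul, card_insert_of_notMem hT.2.1] at e0 e2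
  omega

theorem ext_col (R : I → I → Prop) (S L : Finset I) (x0 : I → Bool) :
    ∃ (T : Finset I) (x : I → Bool), S ⊆ T ∧ (∀ i ∈ T, i ∈ S ∨ i ∈ L) ∧ (∀ i ∈ S, x i = x0 i) ∧
      (∀ j ∈ T, j ∉ S → ∃ i ∈ T, R i j ∧ x i ≠ x j) ∧ ∀ j ∈ L, j ∉ T → ∀ i ∈ T, ¬ R i j := by
  classical
  let P : Finset I → Prop := fun T => ∃ x : I → Bool, S ⊆ T ∧ (∀ i ∈ T, i ∈ S ∨ i ∈ L) ∧
    (∀ i ∈ S, x i = x0 i) ∧ (∀ j ∈ T, j ∉ S → ∃ i ∈ T, R i j ∧ x i ≠ x j)
  obtain ⟨T, hT, hmax⟩ := exists_max_image (univ.filter P) card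
    ⟨S, mem_filter.2 ⟨mem_univ _, x0, Subset.refl _, fun i hi => Or.inl hi, fun _ _ => rfl,
      fun j hj hj' => absurd hj hj'⟩⟩
  obtain ⟨x, h1, h2, h3, h4⟩ := (mem_filter.1 hT).2
  refine ⟨T, x, h1, h2, h3, h4, ?_⟩
  intro j hj hjT i hi hij
  have hne : ∀ a ∈ T, a ≠ j := fun a ha e => hjT (e ▸ ha)
  have : P (insert j T) := by
    refine ⟨Function.update x j (!x i), h1.trans (subset_insert _ _), ?_, ?_, ?_⟩
    · intro a ha
      rcases mem_insert.1 ha with rfl | ha
      · exact Or.inr hj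
      · exact h2 a ha
    · intro a ha
      rw [Function.update_of_ne (hne a (h1 ha))]
      exact h3 a ha
    · intro a ha haS
      rcases mem_insert.1 ha with rfl | ha
      · refine ⟨i, mem_insert_of_mem hi, hij, ?_⟩
        rw [Function.update_of_ne (hne i hi), Function.update_self]
        cases x i <;> simp
      · obtain ⟨b, hb, hb1, hb2⟩ := h4 a ha haS
        refine ⟨b, mem_insert_of_mem hb, hb1, ?_⟩
        rwa [Function.update_of_ne (hne b hb), Function.update_of_ne (hne a ha)]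
  have := hmax _ (mem_filter.2 ⟨mem_univ _, this⟩)
  rw [card_insert_of_notMem hjT] at this
  omega

theorem full_col {R : I → I → Prop} (hc : Conn R) (S : Finset I) (hS : S.Nonempty)
    (x0 : I → Bool) :
    ∃ x : I → Bool, (∀ i ∈ S, x i = x0 i) ∧ ∀ j, j ∉ S → ∃ i, R i j ∧ x i ≠ x j := by
  obtain ⟨T, x, h1, -, h3, h4, h5⟩ := ext_col R S univ x0
  have hT : T = univ := by
    apply hc T (hS.mono h1)
    intro i hi j hij
    by_contra hj
    exact h5 j (mem_univ _) hj i hi hij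
  refine ⟨x, h3, fun j hj => ?_⟩
  obtain ⟨i, -, hi⟩ := h4 j (hT ▸ mem_univ _) hj
  exact ⟨i, hi⟩

/-- no column is monochromatic -/
def NAE (R : I → I → Prop) (x : I → Bool) : Prop := ∀ j, ∃ i, R i j ∧ x i ≠ x j

/-- columns through `r` are monochromatic off `r`, the others are not monochromatic -/
def Star (R : I → I → Prop) (x : I → Bool) (r : I) : Prop :=
  (∀ j, ¬ R r j → ∃ i, R i j ∧ x i ≠ x j) ∧
    ∀ j, R r j → ∀ i i', R i j → R i' j → i ≠ r → i' ≠ r → x i = x i'

theorem nae_flip {R : I → I → Prop} [Nonempty I] (hc : Conn (flip R)) {x : I → Bool}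
    (hx : NAE R x) : ∃ y, NAE (flip R) y := by
  classical
  choose f hf1 hf2 using hx
  obtain ⟨S, hS, hmin⟩ := exists_min_image
    (univ.filter (fun S : Finset I => S.Nonempty ∧ ∀ i ∈ S, f i ∈ S)) card
    ⟨univ, mem_filter.2 ⟨mem_univ _, univ_nonempty, fun _ _ => mem_univ _⟩⟩
  obtain ⟨hne, hinv⟩ := (mem_filter.1 hS).2
  have hsub : S.image f ⊆ S := by
    intro a ha
    obtain ⟨b, hb, rfl⟩ := mem_image.1 ha
    exact hinv b hb
  have heq : S.image f = S := by
    apply eq_of_subset_of_card_le hsub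
    apply hmin
    refine mem_filter.2 ⟨mem_univ _, hne.image f, ?_⟩
    intro a ha
    exact mem_image_of_mem f (hsub ha)
  obtain ⟨y, hy1, hy2⟩ := full_col hc S hne x
  refine ⟨y, fun i => ?_⟩
  by_cases hi : i ∈ S
  · rw [← heq] at hi
    obtain ⟨j, hj, rfl⟩ := mem_image.1 hi
    refine ⟨j, hf1 j, ?_⟩
    rw [hy1 j hj, hy1 _ (hinv j hj)]
    exact (hf2 j).symm
  · exact hy2 i hi

theorem bool_cases (c γ α β β' : Bool → Bool) (c1 g : Bool) (hc : ∀ μ, c μ = c1) (hg : ∀ μ, γ μ = g)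
    (hα : (∀ μ, α μ = μ) ∨ ∃ a, ∀ μ, α μ = a) (hβ : (∀ μ, β μ = μ) ∨ ∃ a, ∀ μ, β μ = a)
    (hβ' : (∀ μ, β' μ = μ) ∨ ∃ a, ∀ μ, β' μ = a) :
    (∃ ρ μ : Bool, (β μ ≠ ρ ∨ β' μ ≠ ρ) ∧ (ρ ≠ c μ ∨ α μ ≠ c μ) ∧ (ρ ≠ μ ∨ γ μ ≠ μ)) ∨
      (α g = c1 ∧ β g = β' g) := by
  simp only [hc, hg]
  rcases hα with hα | ⟨a, hα⟩ <;> rcases hβ with hβ | ⟨b, hβ⟩ <;>
    rcases hβ' with hβ' | ⟨b', hβ'⟩ <;> simp only [hα, hβ, hβ'] <;> clear hα hβ hβ' hc hg <;>
    revert c1 g <;> (try revert a) <;> (try revert b) <;> (try revert b') <;> decide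

theorem lemA {R : I → I → Prop} (h : Cub R) (hc : Conn R) (r u1 u2 : I) (h1 : u1 ≠ r)
    (h2 : u2 ≠ r) (h12 : u1 ≠ u2) (hr : ∀ j, R r j ↔ j = r ∨ j = u1 ∨ j = u2)
    (H : ∀ Z : Finset I, r ∉ Z → u1 ∉ Z → u2 ∉ Z → (∀ j ∈ Z, ∀ i, R i j → i ∈ Z ∨ i = u2) →
      ∀ z ∈ Z, ∀ j, R r j → ¬ R z j) :
    (∃ x, NAE R x) ∨ ∃ x, Star R x r := by
  classical
  obtain ⟨T, x, t1, t2, -, t4, t5⟩ := ext_col R {u1} ((univ.erase r).erase u2) (fun _ => false)
  have hu1 : u1 ∈ T := t1 (mem_singleton_self _)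
  have hrT : r ∉ T := by
    intro hT
    rcases t2 r hT with h' | h'
    · exact h1 (mem_singleton.1 h').symm
    · simp at h'
  have hu2T : u2 ∉ T := by
    intro hT
    rcases t2 u2 hT with h' | h'
    · exact h12 (mem_singleton.1 h').symm
    · simp at h'
  have hZ := H (((univ.erase r).erase u2) \ T) (by simp) (by simp [hu1]) (by simp) (by
    intro j hj i hij
    obtain ⟨hj1, hj2⟩ := mem_sdiff.1 hj
    have hiT : i ∉ T := fun hi => t5 j hj1 hj2 i hi hij
    by_cases e2 : i = u2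
    · exact Or.inr e2
    left
    have e1 : i ≠ r := by
      rintro rfl
      rcases (hr j).1 hij with e | e | e
      · simp [e] at hj1
      · exact hj2 (e ▸ hu1)
      · simp [e] at hj1
    simp [e1, e2, hiT])
  have hin : ∀ z j, R r j → R z j → z ≠ r → z ∈ T ∨ z = u2 := by
    intro z j hj hz hzr
    by_contra hn
    push Not at hn
    exact hZ z (by simp [hzr, hn.1, hn.2]) j hj hz
  have other : ∀ u, u ≠ r → R r u → ∃ w, w ≠ u ∧ w ≠ r ∧ ∀ i, R i u ↔ i = u ∨ i = r ∨ i = w := by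
    intro u hu hru
    obtain ⟨p, q, a1, a2, a3, a4⟩ := h.col u
    rcases (a4 r).1 hru with e | e | e
    · exact absurd e.symm hu
    · subst e
      exact ⟨q, a2, a3.symm, a4⟩
    · subst e
      refine ⟨p, a1, a3, fun i => ?_⟩
      rw [a4]; tauto
  have r1 : R r u1 := (hr _).2 (Or.inr (Or.inl rfl))
  have r2 : R r u2 := (hr _).2 (Or.inr (Or.inr rfl))
  have r0 : R r r := h.diag r
  obtain ⟨w1, b1, b2, b3⟩ := other u1 h1 r1
  obtain ⟨w2, c1, c2, c3⟩ := other u2 h2 r2
  obtain ⟨w, w', d1, d2, -, d4⟩ := h.col r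
  have i1 := hin w1 u1 r1 ((b3 _).2 (Or.inr (Or.inr rfl))) b2
  have i2 : w2 ∈ T := (hin w2 u2 r2 ((c3 _).2 (Or.inr (Or.inr rfl))) c2).resolve_right c1
  have i3 := hin w r r0 ((d4 _).2 (Or.inr (Or.inl rfl))) d1
  have i4 := hin w' r r0 ((d4 _).2 (Or.inr (Or.inr rfl))) d2
  let val : I → Bool → Bool := fun v μ => if v = u2 then μ else x v
  have hval : ∀ v, (∀ μ, val v μ = μ) ∨ ∃ a, ∀ μ, val v μ = a := by
    intro v
    by_cases e : v = u2
    · left; intro μ; simp [val, e]
    · right; exact ⟨x v, fun μ => by simp [val, e]⟩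
  have hvT : ∀ v ∈ T, ∀ μ, val v μ = x v := by
    intro v hv μ
    have : v ≠ u2 := fun e => hu2T (e ▸ hv)
    simp [val, this]
  have build : ∀ ρ μ : Bool, ∃ y : I → Bool, y r = ρ ∧ y u2 = μ ∧
      (∀ v, v ∈ T ∨ v = u2 → y v = val v μ) ∧ ∀ j, ¬ R r j → ∃ i, R i j ∧ y i ≠ y j := by
    intro ρ μ
    obtain ⟨y, y1, y2⟩ := full_col hc (insert r (insert u2 T)) ⟨r, mem_insert_self _ _⟩
      (fun v => if v = r then ρ else val v μ)
    have y3 : ∀ v, v ∈ T ∨ v = u2 → y v = val v μ := by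
      intro v hv
      have hvr : v ≠ r := by
        rintro rfl
        rcases hv with hv | hv
        · exact hrT hv
        · exact h2 hv.symm
      rw [y1 v (by simp only [mem_insert]; tauto)]
      simp [hvr]
    refine ⟨y, by rw [y1 r (mem_insert_self _ _)]; simp, by rw [y3 u2 (Or.inr rfl)]; simp [val],
      y3, ?_⟩
    intro j hj
    rw [hr] at hj
    push Not at hj
    by_cases hjT : j ∈ T
    · obtain ⟨i, hi, e1, e2⟩ := t4 j hjT (by simp [hj.2.1])
      refine ⟨i, e1, ?_⟩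
      rwa [y3 i (Or.inl hi), y3 j (Or.inl hjT), hvT i hi, hvT j hjT]
    · exact y2 j (by simp [hj.1, hj.2.2, hjT])
  rcases bool_cases (val u1) (val w2) (val w1) (val w) (val w') (x u1) (x w2) (hvT u1 hu1)
    (hvT w2 i2) (hval w1) (hval w) (hval w') with ⟨ρ, μ, k1, k2, k3⟩ | ⟨k1, k2⟩
  · left
    obtain ⟨y, y1, y2, y3, y4⟩ := build ρ μ
    refine ⟨y, fun j => ?_⟩
    by_cases hj : R r j
    swap
    · exact y4 j hj
    rcases (hr j).1 hj with e | e | e
    · rw [e]
      rcases k1 with k | k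
      · exact ⟨w, (d4 _).2 (Or.inr (Or.inl rfl)), by rwa [y1, y3 w i3]⟩
      · exact ⟨w', (d4 _).2 (Or.inr (Or.inr rfl)), by rwa [y1, y3 w' i4]⟩
    · rw [e]
      rcases k2 with k | k
      · exact ⟨r, r1, by rwa [y1, y3 u1 (Or.inl hu1)]⟩
      · exact ⟨w1, (b3 _).2 (Or.inr (Or.inr rfl)), by rwa [y3 w1 i1, y3 u1 (Or.inl hu1)]⟩
    · rw [e]
      rcases k3 with k | k
      · exact ⟨r, r2, by rwa [y1, y2]⟩
      · exact ⟨w2, (c3 _).2 (Or.inr (Or.inr rfl)), by rwa [y2, y3 w2 (Or.inl i2)]⟩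
  · right
    obtain ⟨y, -, y2, y3, y4⟩ := build false (x w2)
    refine ⟨y, y4, ?_⟩
    intro j hj i i' hi hi' n1 n2
    have e1 : y w1 = y u1 := by rw [y3 w1 i1, y3 u1 (Or.inl hu1), k1, hvT u1 hu1]
    have e2 : y w2 = y u2 := by rw [y2, y3 w2 (Or.inl i2), hvT w2 i2]
    have e3 : y w = y w' := by rw [y3 w i3, y3 w' i4, k2]
    rcases (hr j).1 hj with e | e | e <;> rw [e] at hi hi'
    · rcases (d4 _).1 hi with a | a | a <;> rcases (d4 _).1 hi' with a' | a' | a' <;>
        first | exact absurd a n1 | exact absurd a' n2 | (rw [a, a']; done) | (rw [a, a', e3])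
    · rcases (b3 _).1 hi with a | a | a <;> rcases (b3 _).1 hi' with a' | a' | a' <;>
        first | exact absurd a n1 | exact absurd a' n2 | (rw [a, a']; done) | (rw [a, a', e1])
    · rcases (c3 _).1 hi with a | a | a <;> rcases (c3 _).1 hi' with a' | a' | a' <;>
        first | exact absurd a n1 | exact absurd a' n2 | (rw [a, a']; done) | (rw [a, a', e2])

/-- exactly two colours on a neighbourhood -/
def Two {C : Type} (N : I → Prop) (c : I → C) : Prop :=
  ∃ i1 i2, N i1 ∧ N i2 ∧ c i1 ≠ c i2 ∧ ∀ i, N i → c i = c i1 ∨ c i = c i2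

/-- a good pair of colourings of the two sides -/
def Good (R : I → I → Prop) (x y : I → Bool × Bool) : Prop :=
  (∀ i j, R i j → x i ≠ y j) ∧ (∀ j, Two (fun i => R i j) x) ∧ ∀ i, Two (R i) y

omit [Fintype I] [DecidableEq I] in
theorem two_of_nae {R : I → I → Prop} (h : Cub R) {x : I → Bool} {c : I → Bool × Bool} {b : Bool}
    {j : I} (hc : ∀ i, R i j → c i = (b, x i)) (hx : ∃ i, R i j ∧ x i ≠ x j) :
    Two (fun i => R i j) c := by
  obtain ⟨i, h1, h2⟩ := hx
  refine ⟨i, j, h1, h.diag j, ?_, ?_⟩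
  · rw [hc i h1, hc j (h.diag j)]
    simpa using h2
  · intro k hk
    rw [hc i h1, hc j (h.diag j), hc k hk]
    revert h2
    cases x i <;> cases x j <;> cases x k <;> simp

omit [Fintype I] [DecidableEq I] in
theorem good_nae {R : I → I → Prop} (h : Cub R) {x y : I → Bool} (hx : NAE R x)
    (hy : NAE (flip R) y) : ∃ x y, Good R x y :=
  ⟨fun i => (false, x i), fun j => (true, y j), fun _ _ _ => by simp,
    fun j => two_of_nae h (fun _ _ => rfl) (hx j),
    fun i => two_of_nae h.flip (fun _ _ => rfl) (hy i)⟩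

omit [Fintype I] in
theorem two_star {R : I → I → Prop} (h : Cub R) {x : I → Bool} {r : I} (hx : Star R x r)
    (b t : Bool) (j : I) :
    Two (fun i => R i j) (fun i => if i = r then (!b, t) else (b, x i)) := by
  by_cases hj : R r j
  · obtain ⟨p, q, a1, a2, a3, a4⟩ := h.col j
    have : ∃ w, R w j ∧ w ≠ r := by
      by_cases e : p = r
      · exact ⟨q, (a4 _).2 (Or.inr (Or.inr rfl)), fun e' => a3 (e.trans e'.symm)⟩
      · exact ⟨p, (a4 _).2 (Or.inr (Or.inl rfl)), e⟩
    obtain ⟨w, w1, w2⟩ := this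
    refine ⟨r, w, hj, w1, by simp [w2], ?_⟩
    intro i hi
    by_cases e : i = r
    · left; simp [e]
    · right; simp [e, w2, hx.2 j hj i w hi w1 e w2]
  · apply two_of_nae h (x := x) (b := b) _ (hx.1 j hj)
    intro i hi
    have : i ≠ r := fun e => hj (e ▸ hi)
    simp [this]

omit [Fintype I] in
theorem good_star {R : I → I → Prop} (h : Cub R) {x y : I → Bool} {r : I} (hx : Star R x r)
    (hy : Star (flip R) y r) : ∃ x y, Good R x y := by
  obtain ⟨u, u', a1, -, -, a4⟩ := h.row r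
  obtain ⟨w, w', b1, -, -, b4⟩ := h.col r
  have ru : R r u := (a4 _).2 (Or.inr (Or.inl rfl))
  have wr : R w r := (b4 _).2 (Or.inr (Or.inl rfl))
  refine ⟨fun i => if i = r then (!false, !y u) else (false, x i),
    fun j => if j = r then (!true, !x w) else (true, y j), ?_,
    two_star h hx false _, two_star h.flip hy true _⟩
  intro i j hij
  by_cases hi : i = r <;> by_cases hj : j = r
  · simp [hi, hj]
  · have := hy.2 r (h.diag r) j u (hi ▸ hij) ru hj a1
    simp only [hi, hj, if_true, if_false, this]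
    cases y u <;> simp
  · have := hx.2 r (h.diag r) i w (hj ▸ hij) wr hi b1
    simp only [hi, hj, if_true, if_false, this]
    cases x w <;> simp
  · simp [hi, hj]

theorem conn_min {R : I → I → Prop} (h : Cub R) (hc : Conn R) {T : Finset I} {e : I}
    (hT : Tight R T e)
    (hmin : ∀ T' e', Tight R T' e' ∨ Tight (flip R) T' e' → T.card ≤ T'.card) :
    ∃ x y, Good R x y := by
  classical
  have hcf := h.conn_flip hc
  have hne : Nonempty I := ⟨e⟩
  have both : (∃ x, NAE R x) ∨ (∃ y, NAE (flip R) y) → ∃ x y, Good R x y := by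
    rintro (⟨x, hx⟩ | ⟨y, hy⟩)
    · obtain ⟨y, hy⟩ := nae_flip hcf hx
      exact good_nae h hx hy
    · obtain ⟨x, hx⟩ := nae_flip (R := flip R) hc hy
      exact good_nae h hx hy
  by_cases h3 : 3 ≤ T.card
  swap
  · have two : ∀ i ∈ T, ∃ i' ∈ T, i' ≠ i ∧ R i i' := by
      intro i hi
      obtain ⟨p, q, a1, a2, a3, a4⟩ := h.row i
      have hp : R i p := (a4 _).2 (Or.inr (Or.inl rfl))
      have hq : R i q := (a4 _).2 (Or.inr (Or.inr rfl))
      rcases hT.2.2 i hi p hp with h1 | h1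
      · exact ⟨p, h1, a1, hp⟩
      rcases hT.2.2 i hi q hq with h2 | h2
      · exact ⟨q, h2, a2, hq⟩
      exact absurd (h1.trans h2.symm) a3
    obtain ⟨i, hi⟩ := hT.1
    obtain ⟨i', hi', n1, r1⟩ := two i hi
    obtain ⟨i'', hi'', n2, r2⟩ := two i' hi'
    have e1 : i'' = i := by
      by_contra n3
      apply h3
      have : ({i, i', i''} : Finset I) ⊆ T := by
        intro a ha
        simp only [mem_insert, mem_singleton] at ha
        rcases ha with rfl | rfl | rfl <;> assumption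
      have hc3 : ({i, i', i''} : Finset I).card = 3 :=
        card_eq_three.2 ⟨i, i', i'', n1.symm, fun e => n3 e.symm, n2.symm, rfl⟩
      exact hc3 ▸ card_le_card this
    rw [e1] at r2
    obtain ⟨x, x1, x2⟩ := full_col hc {i, i'} ⟨i, by simp⟩ (fun v => decide (v = i))
    have xi : x i = true := by rw [x1 i (by simp)]; simp
    have xi' : x i' = false := by rw [x1 i' (by simp)]; simp [n1]
    refine both (Or.inl ⟨x, fun j => ?_⟩)
    by_cases j1 : j = i
    · exact ⟨i', j1 ▸ r2, by rw [j1, xi, xi']; simp⟩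
    by_cases j2 : j = i'
    · exact ⟨i, j2 ▸ r1, by rw [j2, xi, xi']; simp⟩
    exact x2 j (by simp [j1, j2])
  obtain ⟨r, hr, hint⟩ := h.interior hT h3
  have hA : (∃ x, NAE R x) ∨ ∃ x, Star R x r := by
    have : ∃ u1 u2, u1 ≠ r ∧ u2 ≠ r ∧ u1 ≠ u2 ∧ u2 ≠ e ∧ ∀ j, R r j ↔ j = r ∨ j = u1 ∨ j = u2 := by
      obtain ⟨p, q, a1, a2, a3, a4⟩ := h.row r
      by_cases hq : q = e
      · refine ⟨q, p, a2, a1, a3.symm, fun e' => a3 (e'.trans hq.symm), fun j => ?_⟩
        rw [a4]; tauto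
      · exact ⟨p, q, a1, a2, a3, hq, a4⟩
    obtain ⟨u1, u2, a1, a2, a3, a5, a4⟩ := this
    have hu2 : u2 ∈ T := (hT.2.2 r hr u2 ((a4 _).2 (Or.inr (Or.inr rfl)))).resolve_right a5
    refine lemA h hc r u1 u2 a1 a2 a3 a4 ?_
    intro Z z1 _ z3 z4 z hz _ _ _
    have hZ : Tight (flip R) Z u2 := ⟨⟨z, hz⟩, z3, z4⟩
    have hs : ∀ i, i ∉ Z → i ≠ u2 → ∀ j, R i j → j ∉ Z := by
      intro i i1 i2 j hij hj
      rcases z4 j hj i hij with h' | h'
      · exact i1 h'
      · exact i2 h'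
    by_cases he : e ∈ Z
    · have := hmin (T.filter (fun i => i ∉ Z ∧ i ≠ u2)) u2 (Or.inl ⟨⟨r, by simp [hr, z1, a2.symm]⟩,
        by simp, by
          intro i hi j hij
          obtain ⟨i0, i1, i2⟩ := mem_filter.1 hi
          have hj := hs i i1 i2 j hij
          by_cases e2 : j = u2
          · exact Or.inr e2
          left
          rcases hT.2.2 i i0 j hij with h' | h'
          · exact mem_filter.2 ⟨h', hj, e2⟩
          · exact absurd (h' ▸ he) hj⟩)
      have hlt : (T.filter (fun i => i ∉ Z ∧ i ≠ u2)).card < T.card :=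
        card_lt_card ⟨filter_subset _ _, fun hs' => by simpa using hs' hu2⟩
      omega
    · have hu := hc (univ.filter (fun i => i ∈ T ∨ i ∉ Z)) ⟨r, by simp [hr]⟩ (by
        intro i hi j hij
        simp only [mem_filter, mem_univ, true_and] at hi ⊢
        by_cases iT : i ∈ T
        · rcases hT.2.2 i iT j hij with h' | h'
          · exact Or.inl h'
          · exact Or.inr (h' ▸ he)
        · exact Or.inr (hs i (hi.resolve_left iT) (fun e' => iT (e' ▸ hu2)) j hij))
      have hsub : Z ⊆ T := by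
        intro a ha
        have : a ∈ univ.filter (fun i => i ∈ T ∨ i ∉ Z) := by rw [hu]; exact mem_univ a
        simpa [ha] using this
      have := hmin Z u2 (Or.inr hZ)
      have hlt : Z.card < T.card := card_lt_card ⟨hsub, fun hs' => z1 (hs' hr)⟩
      omega
  have hB : (∃ y, NAE (flip R) y) ∨ ∃ y, Star (flip R) y r := by
    obtain ⟨v1, v2, a1, a2, a3, a4⟩ := h.col r
    have hv2 : v2 ∈ T := hint v2 ((a4 _).2 (Or.inr (Or.inr rfl)))
    refine lemA h.flip hcf r v1 v2 a1 a2 a3 a4 ?_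
    intro Z z1 _ z3 z4 z hz i hir hiz
    have hi : i ∈ T := hint i hir
    by_cases he : e ∈ Z
    · have hu := hc (T ∪ Z) ⟨r, by simp [hr]⟩ (by
        intro a ha j haj
        rcases mem_union.1 ha with h' | h'
        · rcases hT.2.2 a h' j haj with h'' | h''
          · exact mem_union_left _ h''
          · exact mem_union_right _ (h'' ▸ he)
        · rcases z4 a h' j haj with h'' | h''
          · exact mem_union_right _ h''
          · exact mem_union_left _ (h'' ▸ hv2))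
      have := hmin (univ.filter (fun j => j ∉ Z ∧ j ≠ v2)) v2 (Or.inr ⟨⟨r, by simp [z1, a2.symm]⟩,
        by simp, by
          intro j hj a haj
          obtain ⟨-, j1, j2⟩ := mem_filter.1 hj
          by_cases e2 : a = v2
          · exact Or.inr e2
          left
          refine mem_filter.2 ⟨mem_univ _, fun ha => ?_, e2⟩
          rcases z4 a ha j haj with h' | h'
          · exact j1 h'
          · exact j2 h'⟩)
      have hlt : (univ.filter (fun j => j ∉ Z ∧ j ≠ v2)).card < T.card := by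
        refine card_lt_card ⟨?_, fun hs' => by simpa using hs' hv2⟩
        intro a ha
        have : a ∈ T ∪ Z := hu ▸ mem_univ a
        exact (mem_union.1 this).resolve_right (mem_filter.1 ha).2.1
      omega
    · have hzT : z ∈ T := (hT.2.2 i hi z hiz).resolve_right (fun e' => he (e' ▸ hz))
      have := hmin (T ∩ Z) v2 (Or.inl ⟨⟨z, mem_inter.2 ⟨hzT, hz⟩⟩, by simp [z3], by
        intro a ha j haj
        obtain ⟨ha1, ha2⟩ := mem_inter.1 ha
        rcases z4 a ha2 j haj with h' | h'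
        · left
          rcases hT.2.2 a ha1 j haj with h'' | h''
          · exact mem_inter.2 ⟨h'', h'⟩
          · exact absurd (h'' ▸ h') he
        · exact Or.inr h'⟩)
      have hlt : (T ∩ Z).card < T.card :=
        card_lt_card ⟨inter_subset_left, fun hs' => z1 (mem_inter.1 (hs' hr)).2⟩
      omega
  rcases hA with hA | ⟨x, hx⟩
  · exact both (Or.inl hA)
  rcases hB with hB | ⟨y, hy⟩
  · exact both (Or.inr hB)
  exact good_star h hx hy

omit [Fintype I] [DecidableEq I] in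
theorem Good.flip {R : I → I → Prop} {x y} (h : Good R x y) : Good (flip R) y x :=
  ⟨fun i j hij => (h.1 j i hij).symm, h.2.2, h.2.1⟩

theorem conn_good {R : I → I → Prop} (h : Cub R) (hc : Conn R) : ∃ x y, Good R x y := by
  classical
  rcases isEmpty_or_nonempty I with hI | ⟨⟨e⟩⟩
  · exact ⟨fun i => isEmptyElim i, fun i => isEmptyElim i, fun i => isEmptyElim i,
      fun i => isEmptyElim i, fun i => isEmptyElim i⟩
  obtain ⟨p, -, a1, -⟩ := h.row e
  obtain ⟨T, hT, hmin⟩ := exists_min_image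
    (univ.filter (fun T : Finset I => ∃ e', Tight R T e' ∨ Tight (flip R) T e')) card
    ⟨univ.erase e, mem_filter.2 ⟨mem_univ _, e, Or.inl ⟨⟨p, by simp [a1]⟩, by simp, by
      intro i _ j _
      by_cases hj : j = e
      · exact Or.inr hj
      · left; simp [hj]⟩⟩⟩
  have hmin' : ∀ T' e', Tight R T' e' ∨ Tight (flip R) T' e' → T.card ≤ T'.card :=
    fun T' e' h' => hmin T' (mem_filter.2 ⟨mem_univ _, e', h'⟩)
  obtain ⟨e', h' | h'⟩ := (mem_filter.1 hT).2
  · exact conn_min h hc h' hmin'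
  · obtain ⟨x, y, hg⟩ := conn_min h.flip (h.conn_flip hc) h' (fun T' e'' h'' => hmin' T' e'' h''.symm)
    exact ⟨y, x, hg.flip⟩

omit [Fintype I] [DecidableEq I] in
theorem Cub.sub {R : I → I → Prop} (h : Cub R) {T : Finset I} (h1 : Cl R T)
    (h2 : Cl (_root_.flip R) T) : Cub (fun i j : T => R i.1 j.1) := by
  constructor
  · intro i
    obtain ⟨p, q, a1, a2, a3, a4⟩ := h.row i.1
    refine ⟨⟨p, h1 _ i.2 _ ((a4 _).2 (Or.inr (Or.inl rfl)))⟩,
      ⟨q, h1 _ i.2 _ ((a4 _).2 (Or.inr (Or.inr rfl)))⟩, fun e => a1 (congrArg Subtype.val e),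
      fun e => a2 (congrArg Subtype.val e), fun e => a3 (congrArg Subtype.val e), fun j => ?_⟩
    simp only [a4, Subtype.ext_iff]
  · intro i
    obtain ⟨p, q, a1, a2, a3, a4⟩ := h.col i.1
    refine ⟨⟨p, h2 _ i.2 _ ((a4 _).2 (Or.inr (Or.inl rfl)))⟩,
      ⟨q, h2 _ i.2 _ ((a4 _).2 (Or.inr (Or.inr rfl)))⟩, fun e => a1 (congrArg Subtype.val e),
      fun e => a2 (congrArg Subtype.val e), fun e => a3 (congrArg Subtype.val e), fun j => ?_⟩
    simp only [a4, Subtype.ext_iff]

omit [Fintype I] [DecidableEq I] in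
theorem two_sub {T : Finset I} {N : I → Prop} {c : T → Bool × Bool} {d : I → Bool × Bool}
    (hN : ∀ i, N i → i ∈ T) (hd : ∀ i (hi : i ∈ T), d i = c ⟨i, hi⟩)
    (h : Two (fun i : T => N i.1) c) : Two N d := by
  obtain ⟨i1, i2, a1, a2, a3, a4⟩ := h
  refine ⟨i1.1, i2.1, a1, a2, by rwa [hd _ i1.2, hd _ i2.2], fun i hi => ?_⟩
  rw [hd _ i1.2, hd _ i2.2, hd _ (hN i hi)]
  exact a4 _ hi

theorem all_good (n : ℕ) : ∀ (I : Type) [Fintype I] [DecidableEq I] (R : I → I → Prop),
    Fintype.card I = n → Cub R → ∃ x y, Good R x y := by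
  induction n using Nat.strong_induction_on with
  | _ n ih =>
    intro I _ _ R hn h
    by_cases hc : Conn R
    · exact conn_good h hc
    simp only [Conn, not_forall] at hc
    obtain ⟨T, hne, h1, hu⟩ := hc
    have h2 := h.cl_flip h1
    have h3 : Cl R Tᶜ := by
      intro i hi j hij
      rw [mem_compl] at hi ⊢
      exact fun hj => hi (h2 j hj i hij)
    have h4 := h.cl_flip h3
    obtain ⟨x1, y1, g1⟩ := ih T.card (hn ▸ card_lt_univ_of_notMem
      (x := (not_forall.1 (fun h' => hu (eq_univ_iff_forall.2 h'))).choose)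
      (not_forall.1 (fun h' => hu (eq_univ_iff_forall.2 h'))).choose_spec) T _ (by simp)
      (h.sub h1 h2)
    obtain ⟨x2, y2, g2⟩ := ih Tᶜ.card (hn ▸ card_lt_univ_of_notMem (x := hne.choose)
      (by simpa using hne.choose_spec)) (Tᶜ : Finset I) _ (Fintype.card_coe _) (h.sub h3 h4)
    refine ⟨fun i => if hi : i ∈ T then x1 ⟨i, hi⟩ else x2 ⟨i, mem_compl.2 hi⟩,
      fun i => if hi : i ∈ T then y1 ⟨i, hi⟩ else y2 ⟨i, mem_compl.2 hi⟩, ?_, ?_, ?_⟩
    · intro i j hij
      by_cases hi : i ∈ T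
      · have hj := h1 i hi j hij
        simp only [hi, hj, dite_true]
        exact g1.1 ⟨i, hi⟩ ⟨j, hj⟩ hij
      · have hj := mem_compl.1 (h3 i (mem_compl.2 hi) j hij)
        simp only [hi, hj, dite_false]
        exact g2.1 ⟨i, _⟩ ⟨j, _⟩ hij
    · intro j
      by_cases hj : j ∈ T
      · exact two_sub (fun i hi => h2 j hj i hi) (fun i hi => by simp [hi]) (g1.2.1 ⟨j, hj⟩)
      · exact two_sub (fun i hi => h4 j (mem_compl.2 hj) i hi)
          (fun i hi => by simp [mem_compl.1 hi]) (g2.2.1 ⟨j, mem_compl.2 hj⟩)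
    · intro j
      by_cases hj : j ∈ T
      · exact two_sub (fun i hi => h1 j hj i hi) (fun i hi => by simp [hi]) (g1.2.2 ⟨j, hj⟩)
      · exact two_sub (fun i hi => h3 j (mem_compl.2 hj) i hi)
          (fun i hi => by simp [mem_compl.1 hi]) (g2.2.2 ⟨j, mem_compl.2 hj⟩)

theorem three_nbrs {V : Type} [Fintype V] (G : SimpleGraph V) [DecidableRel G.Adj]
    (hG : G.IsRegularOfDegree 3) {J : Type} (g : J → V) (hg : Function.Injective g) (v : V)
    (hv : ∀ w, G.Adj v w → ∃ j, g j = w) (i : J) (hi : G.Adj v (g i)) :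
    ∃ p q, p ≠ i ∧ q ≠ i ∧ p ≠ q ∧ ∀ j, G.Adj v (g j) ↔ j = i ∨ j = p ∨ j = q := by
  classical
  have h3 : ((G.neighborFinset v).erase (g i)).card = 2 := by
    rw [card_erase_of_mem (by simpa using hi), SimpleGraph.card_neighborFinset_eq_degree, hG v]
  obtain ⟨a, b, hab, e⟩ := card_eq_two.1 h3
  have ha : a ∈ (G.neighborFinset v).erase (g i) := by rw [e]; simp
  have hb : b ∈ (G.neighborFinset v).erase (g i) := by rw [e]; simp
  simp only [mem_erase, SimpleGraph.mem_neighborFinset] at ha hb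
  obtain ⟨p, rfl⟩ := hv a ha.2
  obtain ⟨q, rfl⟩ := hv b hb.2
  refine ⟨p, q, fun h => ha.1 (h ▸ rfl), fun h => hb.1 (h ▸ rfl), fun h => hab (h ▸ rfl), ?_⟩
  intro j
  constructor
  · intro hj
    by_cases hji : j = i
    · exact Or.inl hji
    · have : g j ∈ (G.neighborFinset v).erase (g i) := by
        simp only [mem_erase, SimpleGraph.mem_neighborFinset]
        exact ⟨fun h => hji (hg h), hj⟩
      rw [e] at this
      simp only [mem_insert, mem_singleton] at this
      exact Or.inr (this.imp (fun h => hg h) (fun h => hg h))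
  · rintro (rfl | rfl | rfl)
    · exact hi
    · exact ha.2
    · exact hb.2

theorem card_two {V J : Type} [Fintype V] (G : SimpleGraph V) [DecidableRel G.Adj] (g : J → V)
    (v : V) (hv : ∀ w, G.Adj v w → ∃ j, g j = w) (c : V → Fin 4) (x : J → Bool × Bool)
    (ι : Bool × Bool → Fin 4) (hι : Function.Injective ι) (hc : ∀ j, c (g j) = ι (x j))
    (h : Two (fun j => G.Adj v (g j)) x) : ((G.neighborFinset v).image c).card = 2 := by
  obtain ⟨i1, i2, a1, a2, a3, a4⟩ := h
  rw [card_eq_two]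
  refine ⟨ι (x i1), ι (x i2), fun e => a3 (hι e), ?_⟩
  ext k
  simp only [mem_image, SimpleGraph.mem_neighborFinset, mem_insert, mem_singleton]
  constructor
  · rintro ⟨w, hw, rfl⟩
    obtain ⟨j, rfl⟩ := hv w hw
    rw [hc]
    exact (a4 j hw).imp (congrArg ι) (congrArg ι)
  · rintro (rfl | rfl)
    · exact ⟨_, a1, hc _⟩
    · exact ⟨_, a2, hc _⟩

theorem bipartite_four {V : Type} [Fintype V] (G : SimpleGraph V) [DecidableRel G.Adj]
    (hG : G.IsRegularOfDegree 3) (hB : G.IsBipartite) :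
    ∃ c : V → Fin 4, (∀ u v : V, G.Adj u v → c u ≠ c v) ∧
      ∀ v : V, ((G.neighborFinset v).image c).card = 2 := by
  classical
  obtain ⟨A, B, hAB⟩ := SimpleGraph.isBipartite_iff_exists_isBipartiteWith.1 hB
  have hall : ∀ s : Set V, s.ncard ≤ (⋃ x ∈ s, G.neighborSet x).ncard := by
    intro s
    rw [Set.ncard_eq_toFinset_card', Set.ncard_eq_toFinset_card']
    have := card_mul_le_card_mul (s := s.toFinset) (t := (⋃ x ∈ s, G.neighborSet x).toFinset)
      (m := 3) (n := 3) G.Adj (by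
        intro a ha
        rw [← hG a, ← SimpleGraph.card_neighborFinset_eq_degree]
        apply card_le_card
        intro b hb
        simp only [SimpleGraph.mem_neighborFinset] at hb
        simp only [mem_bipartiteAbove, Set.mem_toFinset, Set.mem_iUnion]
        exact ⟨⟨a, by simpa using ha, hb⟩, hb⟩) (by
        intro b _
        rw [← hG b, ← SimpleGraph.card_neighborFinset_eq_degree]
        apply card_le_card
        intro a ha
        simp only [mem_bipartiteBelow] at ha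
        simpa using ha.2.symm)
    omega
  obtain ⟨f, hf, hadj⟩ := SimpleGraph.exists_bijective_of_forall_ncard_le hAB hall
  have huniv := SimpleGraph.union_eq_univ_of_forall_ncard_le hAB hall
  have nA : ∀ a : A, ∀ w, G.Adj a.1 w → ∃ j : A, (f j).1 = w := by
    intro a w hw
    obtain ⟨j, hj⟩ := hf.2 ⟨w, hAB.mem_of_mem_adj a.2 hw⟩
    exact ⟨j, by rw [hj]⟩
  have nB : ∀ b : B, ∀ w, G.Adj b.1 w → ∃ j : A, j.1 = w :=
    fun b w hw => ⟨⟨w, hAB.symm.mem_of_mem_adj b.2 hw⟩, rfl⟩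
  have hcub : Cub (fun i j : A => G.Adj i.1 (f j).1) := by
    constructor
    · intro i
      exact three_nbrs G hG (fun j : A => (f j).1) (Subtype.val_injective.comp hf.1) i.1 (nA i) i
        (hadj i)
    · intro j
      obtain ⟨p, q, a1, a2, a3, a4⟩ := three_nbrs G hG (fun i : A => i.1) Subtype.val_injective
        (f j).1 (nB (f j)) j (hadj j).symm
      exact ⟨p, q, a1, a2, a3, fun i => by rw [← a4, G.adj_comm]⟩
  obtain ⟨x, y, g1, g2, g3⟩ := all_good _ A _ rfl hcub
  let e : A ≃ B := Equiv.ofBijective f hf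
  let ι : Bool × Bool → Fin 4 := fun z => match z with
    | (false, false) => 0 | (false, true) => 1 | (true, false) => 2 | (true, true) => 3
  have hι : Function.Injective ι := by decide
  have hB' : ∀ v, v ∉ A → v ∈ B := fun v hv =>
    ((Set.mem_union _ _ _).1 (huniv ▸ Set.mem_univ v)).resolve_left hv
  let c : V → Fin 4 := fun v => if hv : v ∈ A then ι (x ⟨v, hv⟩) else ι (y (e.symm ⟨v, hB' v hv⟩))
  have cA : ∀ j : A, c j.1 = ι (x j) := fun j => by simp [c, j.2]
  have cB : ∀ j : A, c (f j).1 = ι (y j) := by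
    intro j
    have hn : (f j).1 ∉ A := hAB.disjoint.notMem_of_mem_right (f j).2
    simp only [c, hn, dite_false]
    congr 2
    exact e.symm_apply_apply j
  have key : ∀ u v, u ∈ A → G.Adj u v → c u ≠ c v := by
    intro u v hu huv
    obtain ⟨j, rfl⟩ := nA ⟨u, hu⟩ v huv
    rw [cB, cA ⟨u, hu⟩]
    exact fun h => g1 ⟨u, hu⟩ j huv (hι h)
  refine ⟨c, ?_, ?_⟩
  · intro u v huv
    by_cases hu : u ∈ A
    · exact key u v hu huv
    · exact (key v u (hAB.symm.mem_of_mem_adj (hB' u hu) huv) huv.symm).symm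
  · intro v
    by_cases hv : v ∈ A
    · exact card_two G (fun j : A => (f j).1) v (nA ⟨v, hv⟩) c y ι hι cB (g3 ⟨v, hv⟩)
    · obtain ⟨j, hj⟩ := hf.2 ⟨v, hB' v hv⟩
      have ev : v = (f j).1 := by rw [hj]
      rw [ev]
      refine card_two G (fun i : A => i.1) (f j).1 (nB (f j)) c x ι hι cA ?_
      simpa only [G.adj_comm (f j).1] using g2 j

end Pool.Agent.Lib.MP_7e4769_co
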